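import Mathlib

set_option autoImplicit false

namespace Pool.Agent.Results.MP_0f7a95_an.Counterexample

open RCLike

/-- `x` is convex-cyclic for `T`: the (real) convex hull of its orbit is dense. -/
def IsCC {𝕜 X : Type} [RCLike 𝕜] [NormedAddCommGroup X] [NormedSpace 𝕜 X] (T : X →L[𝕜] X)
    (x : X) : Prop :=
  letI := NormedSpace.restrictScalars ℝ 𝕜 X
  Dense (convexHull ℝ (Set.range fun n : ℕ => (T ^ n) x))

section alg
variable {A : Type*} [NormedRing A] [NormedAlgebra ℝ A] {D : Submonoid A}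

lemma lim (hD : IsClosed (D : Set A)) {c E : A}
    (step : ∀ E, ‖E‖ ≤ 1 / 10 → c + E ∈ D → ∃ F, ‖F‖ ≤ ‖E‖ / 2 ∧ c + F ∈ D)
    (h1 : ‖E‖ ≤ 1 / 10) (h2 : c + E ∈ D) : c ∈ D := by
  have h : ∀ n : ℕ, ∃ F, ‖F‖ ≤ 1 / 10 * (1 / 2) ^ n ∧ c + F ∈ D := fun n => by
    induction n with
    | zero => exact ⟨E, by simpa using h1, h2⟩
    | succ n ih =>
      obtain ⟨F, a, b⟩ := ih
      have : (1 / 2 : ℝ) ^ n ≤ 1 := pow_le_one₀ (by norm_num) (by norm_num)
      obtain ⟨G, a', b'⟩ := step F (by linarith) b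
      exact ⟨G, by rw [pow_succ]; linarith, b'⟩
  refine hD.closure_subset (Metric.mem_closure_iff.2 fun ε hε => ?_)
  obtain ⟨n, hn⟩ := exists_pow_lt_of_lt_one hε (show (1 / 2 : ℝ) < 1 by norm_num)
  obtain ⟨F, a, b⟩ := h n
  refine ⟨_, b, ?_⟩
  rw [dist_self_add_right]
  linarith [pow_pos (show (0 : ℝ) < 1 / 2 by norm_num) n]

lemma pw {E : A} (h : ‖E‖ ≤ 1 / 10) :
    ‖E * E‖ ≤ ‖E‖ / 10 ∧ ‖E * E * E‖ ≤ ‖E‖ / 100 ∧ ‖E * E * E * E‖ ≤ ‖E‖ / 1000 := by
  have k : ∀ X : A, ‖X * E‖ ≤ ‖X‖ / 10 := fun X => by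
    nlinarith [norm_mul_le X E, norm_nonneg X]
  refine ⟨k _, ?_, ?_⟩ <;> linarith [k E, k (E * E), k (E * E * E)]

lemma reals (hD : IsClosed (D : Set A)) (hc : Convex ℝ (D : Set A)) {E : A}
    (h1 : ‖E‖ ≤ 1 / 10) (h2 : (-3 : ℝ) • 1 + E ∈ D) (t : ℝ) : t • (1 : A) ∈ D := by
  have h3 : (-3 : ℝ) • (1 : A) ∈ D := lim hD (fun E h1 h2 => by
    obtain ⟨p2, p3, p4⟩ := pw h1
    refine ⟨(1 / 8 : ℝ) • (E * E * E * E) - E * E * E + (9 / 4 : ℝ) • (E * E), ?_, ?_⟩
    · refine (norm_add_le _ _).trans ((add_le_add (norm_sub_le _ _) le_rfl).trans ?_)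
      rw [norm_smul, norm_smul, Real.norm_of_nonneg (by norm_num),
        Real.norm_of_nonneg (by norm_num)]
      linarith [norm_nonneg E]
    · have m3 := D.mul_mem (D.mul_mem h2 h2) h2
      have := hc m3 (hc (D.mul_mem m3 h2) D.one_mem (a := 1 / 4) (b := 3 / 4) (by norm_num)
        (by norm_num) (by norm_num)) (a := 1 / 2) (b := 1 / 2) (by norm_num) (by norm_num)
        (by norm_num)
      simp only [mul_add, add_mul, smul_mul_assoc, mul_smul_comm, one_mul, mul_one] at this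
      exact (congrArg (· ∈ D) (by module)).mp this) h1 h2
  have h4 : ∀ n : ℕ, ((-3 : ℝ) ^ n) • (1 : A) ∈ D := fun n => by
    have := D.pow_mem h3 n
    rwa [smul_pow, one_pow] at this
  obtain ⟨n, hn⟩ := pow_unbounded_of_one_lt |t| (show (1 : ℝ) < 9 by norm_num)
  have e : (-3 : ℝ) ^ (2 * n) = 9 ^ n := by rw [pow_mul]; norm_num
  have := (hc.is_linear_preimage (f := fun t : ℝ => t • (1 : A))
    ⟨fun _ _ => add_smul _ _ _, fun _ _ => smul_assoc _ _ _⟩).ordConnected.out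
    (h4 (2 * n + 1)) (h4 (2 * n))
  refine this ⟨?_, ?_⟩
  · rw [pow_succ, e]; linarith [neg_abs_le t, abs_nonneg t]
  · rw [e]; linarith [le_abs_self t]

lemma add_mem' (hc : Convex ℝ (D : Set A)) (h : ∀ t : ℝ, t • (1 : A) ∈ D) {x y : A}
    (hx : x ∈ D) (hy : y ∈ D) (s t : ℝ) : s • x + t • y ∈ D := by
  have := hc (D.mul_mem (h (2 * s)) hx) (D.mul_mem (h (2 * t)) hy) (a := 1 / 2) (b := 1 / 2)
    (by norm_num) (by norm_num) (by norm_num)
  simp only [smul_mul_assoc, one_mul] at this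
  exact (congrArg (· ∈ D) (by module)).mp this

lemma imag (hD : IsClosed (D : Set A)) (hc : Convex ℝ (D : Set A)) {J E : A}
    (hJ : ∀ F, F * J = J * F) (hJ2 : J * J = -1) (hJ1 : ‖J‖ ≤ 1)
    (h1 : ‖E‖ ≤ 1 / 100) (h2 : (2 : ℝ) • J + E ∈ D) : (∀ t : ℝ, t • (1 : A) ∈ D) ∧ J ∈ D := by
  have k : ∀ X : A, ‖J * X‖ ≤ ‖X‖ := fun X => by nlinarith [norm_mul_le J X, norm_nonneg X]
  have j3 : ∀ F, J * (J * F) = -F := fun F => by rw [← mul_assoc, hJ2, neg_one_mul]
  have h := reals hD hc (E := (16 / 5 : ℝ) • (J * E) + (4 / 5 : ℝ) • (E * E)) (by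
      refine (norm_add_le _ _).trans ?_
      rw [norm_smul, norm_smul, Real.norm_of_nonneg (by norm_num),
        Real.norm_of_nonneg (by norm_num)]
      linarith [k E, (pw (E := E) (by linarith)).1]) (by
      have := hc (D.mul_mem h2 h2) D.one_mem (a := 4 / 5) (b := 1 / 5) (by norm_num)
        (by norm_num) (by norm_num)
      simp only [mul_add, add_mul, smul_mul_assoc, mul_smul_comm, hJ E, hJ2] at this
      exact (congrArg (· ∈ D) (by module)).mp this)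
  refine ⟨h, lim hD (E := (1 / 2 : ℝ) • E) (fun E h1 h2 => ?_) ?_ ?_⟩
  · obtain ⟨p2, p3, -⟩ := pw h1
    refine ⟨(3 / 2 : ℝ) • (J * (E * E)) + (1 / 2 : ℝ) • (E * E * E), ?_, ?_⟩
    · refine (norm_add_le _ _).trans ?_
      rw [norm_smul, norm_smul, Real.norm_of_nonneg (by norm_num),
        Real.norm_of_nonneg (by norm_num)]
      linarith [norm_nonneg E, k (E * E)]
    · have := add_mem' hc h h2 (D.mul_mem (D.mul_mem h2 h2) h2) (3 / 2) (1 / 2)
      simp only [mul_add, add_mul, hJ E, hJ (E * E), hJ (J * E), hJ2, j3, neg_one_mul,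
        mul_assoc J E E] at this
      exact (congrArg (· ∈ D) (by module)).mp this
  · rw [norm_smul, Real.norm_of_nonneg (by norm_num)]; linarith
  · exact (congrArg (· ∈ D) (by module)).mp (add_mem' hc h h2 h2 (1 / 2) 0)

end alg

variable {𝕜 H : Type} [RCLike 𝕜] [NormedAddCommGroup H]

lemma cyc [NormedSpace 𝕜 H] (S : H →L[𝕜] H) (hS : ‖S‖ ≤ 1) (x : H)
    (hx : ∀ K : Submodule 𝕜 H, IsClosed (K : Set H) → x ∈ K → (∀ y ∈ K, S y ∈ K) → K = ⊤) :
    ∃ c : 𝕜, IsCC (c • 1 + (1 / 100 : 𝕜) • S) x := by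
  let _ := NormedSpace.restrictScalars ℝ 𝕜 H
  let _ := NormedAlgebra.restrictScalars ℝ 𝕜 (H →L[𝕜] H)
  have n1 : ‖(1 / 100 : 𝕜) • S‖ ≤ 1 / 100 := by
    rw [norm_smul]; simp only [one_div, norm_inv, RCLike.norm_ofNat]; linarith
  suffices ∃ c : 𝕜, ∀ D : Submonoid (H →L[𝕜] H), IsClosed (D : Set (H →L[𝕜] H)) →
      Convex ℝ (D : Set (H →L[𝕜] H)) → c • 1 + (1 / 100 : 𝕜) • S ∈ D →
      (∀ t : ℝ, t • (1 : H →L[𝕜] H) ∈ D) ∧ ∀ t : ℝ, t • (I : 𝕜) • (1 : H →L[𝕜] H) ∈ D by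
    obtain ⟨c, hc⟩ := this
    refine ⟨c, ?_⟩
    generalize hT : c • 1 + (1 / 100 : 𝕜) • S = T at hc
    let K := closure (convexHull ℝ (Set.range fun n : ℕ => (T ^ n) x))
    have K1 : Convex ℝ K := (convex_convexHull ℝ _).closure
    let D : Submonoid (H →L[𝕜] H) :=
      ⟨⟨{A | ∀ y ∈ K, A y ∈ K}, fun ha hb y hy => ha _ (hb y hy)⟩, fun _ h => h⟩
    have D1 : Convex ℝ (D : Set (H →L[𝕜] H)) := fun A hA B hB a b ha hb hab y hy =>
      K1 (hA y hy) (hB y hy) ha hb hab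
    have D2 : T ∈ D := by
      refine Set.MapsTo.closure (f := T) ?_ T.continuous
      refine convexHull_min ?_ ((convex_convexHull ℝ _).is_linear_preimage
        ⟨map_add T, fun t y => map_smul T (t : 𝕜) y⟩)
      rintro _ ⟨n, rfl⟩
      exact subset_convexHull ℝ _ ⟨n + 1, by simp [pow_succ']⟩
    obtain ⟨h1, h2⟩ := hc D (by
      change IsClosed {A : H →L[𝕜] H | ∀ y ∈ K, A y ∈ K}
      simp only [Set.ofPred_forall]
      exact isClosed_iInter fun y => isClosed_iInter fun _ =>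
        isClosed_closure.preimage (by fun_prop)) D1 D2
    have h3 : ∀ z : 𝕜, z • (1 : H →L[𝕜] H) ∈ D := fun z => by
      have := add_mem' D1 h1 D.one_mem (h2 1) (re z) (im z)
      rw [one_smul] at this
      change ((re z : ℝ) : 𝕜) • 1 + ((im z : ℝ) : 𝕜) • _ ∈ D at this
      rwa [smul_smul, ← add_smul, re_add_im] at this
    have h4 : ∀ y ∈ K, ∀ z ∈ K, y + z ∈ K := fun y hy z hz => by
      have := K1 (h1 2 y hy) (h1 2 z hz) (a := 1 / 2) (b := 1 / 2) (by norm_num) (by norm_num)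
        (by norm_num)
      change (1 / 2 : ℝ) • (2 : ℝ) • y + (1 / 2 : ℝ) • (2 : ℝ) • z ∈ K at this
      simpa [smul_smul] using this
    have h5 : x ∈ K := subset_closure (subset_convexHull ℝ _ ⟨0, rfl⟩)
    have := hx ⟨⟨⟨K, fun {y z} hy hz => h4 y hy z hz⟩, by simpa using h3 0 x h5⟩,
      fun z y hy => h3 z y hy⟩ isClosed_closure h5 fun y hy => by
        have := h3 100 _ (h4 _ (D2 y hy) _ (h3 (-c) y hy))
        simpa [← hT, smul_smul] using this
    exact dense_iff_closure_eq.2 (congrArg (fun K : Submodule 𝕜 H => (K : Set H)) this)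
  by_cases hI : (I : 𝕜) = 0
  · refine ⟨((-3 : ℝ) : 𝕜), fun D h1 h2 h3 => ?_⟩
    have := reals h1 h2 (by linarith) h3
    exact ⟨this, fun t => by simpa [hI] using this 0⟩
  · refine ⟨((2 : ℝ) : 𝕜) * I, fun D h1 h2 h3 => ?_⟩
    obtain ⟨a, b⟩ := imag h1 h2 (J := (I : 𝕜) • 1) (fun F => by simp)
      (by simp [smul_smul, I_mul_I_of_nonzero hI])
      (by rw [norm_smul, norm_I_of_ne_zero hI, one_mul]; exact ContinuousLinearMap.norm_id_le)
      n1 (by rw [mul_smul] at h3; exact h3)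
    exact ⟨a, fun t => by have := D.mul_mem (a t) b; rwa [smul_mul_assoc, one_mul] at this⟩

lemma near [InnerProductSpace 𝕜 H] [CompleteSpace H] (S : H →ₗᵢ[𝕜] H) {e : H} (he : ‖e‖ = 1)
    (h0 : ∀ y, inner 𝕜 (S y) e = 0) {h : H} (hh : ‖h‖ ≤ 1 / 8) :
    ∃ (k : H) (μ : 𝕜), k ≠ 0 ∧ inner 𝕜 (S e + h) k = 0 ∧
      ∀ y, inner 𝕜 (S y) k = μ * inner 𝕜 y k := by
  have i1 : ∀ k, ‖inner 𝕜 h k‖ ≤ ‖k‖ / 8 := fun k => by
    nlinarith [norm_inner_le_norm (𝕜 := 𝕜) h k, norm_nonneg k]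
  have m : Set.MapsTo (fun k => e - inner 𝕜 h k • S k) (Metric.closedBall 0 2)
      (Metric.closedBall 0 2) := fun k hk => by
    rw [mem_closedBall_zero_iff] at hk ⊢
    refine (norm_sub_le _ _).trans ?_
    rw [norm_smul, S.norm_map]
    nlinarith [i1 k, norm_nonneg k]
  obtain ⟨k, -, hk, -⟩ := ContractingWith.exists_fixedPoint' (K := 1 / 2)
    Metric.isClosed_closedBall.isComplete m ⟨by norm_num, LipschitzWith.of_dist_le_mul fun a b => by
      have ha := mem_closedBall_zero_iff.1 a.2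
      have hb := mem_closedBall_zero_iff.1 b.2
      change dist (e - inner 𝕜 h a.1 • S a.1) (e - inner 𝕜 h b.1 • S b.1) ≤ _ * dist a.1 b.1
      rw [dist_sub_left, dist_eq_norm, dist_eq_norm, show inner 𝕜 h a.1 • S a.1 -
        inner 𝕜 h b.1 • S b.1 = inner 𝕜 h (a.1 - b.1) • S a.1 + inner 𝕜 h b.1 • S (a.1 - b.1) by
          simp [inner_sub_right, sub_smul, smul_sub]]
      refine (norm_add_le _ _).trans ?_
      rw [norm_smul, norm_smul, S.norm_map, S.norm_map]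
      push_cast
      nlinarith [i1 (a.1 - b.1), i1 b.1, norm_nonneg (a.1 - b.1), norm_nonneg a.1,
        norm_nonneg (inner 𝕜 h (a.1 - b.1))]⟩ (x := 0) (by simp) (edist_ne_top _ _)
  replace hk : e - inner 𝕜 h k • S k = k := hk
  have k1 : ∀ y, inner 𝕜 (S y) k = -inner 𝕜 h k * inner 𝕜 y k := fun y => by
    conv_lhs => rw [← hk]
    rw [inner_sub_right, h0, inner_smul_right, S.inner_map_map]; ring
  have k2 : inner 𝕜 e k = 1 := by
    rw [← hk, inner_sub_right, inner_smul_right, inner_eq_zero_symm.1 (h0 k),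
      inner_self_eq_norm_sq_to_K, he]; simp
  refine ⟨k, _, by rintro rfl; simp at k2, ?_, k1⟩
  rw [inner_add_left, k1, k2]; ring

lemma main [InnerProductSpace 𝕜 H] [CompleteSpace H] (b : HilbertBasis ℕ 𝕜 H) :
    ∃ T : H →L[𝕜] H, (∃ x, IsCC T x) ∧ ¬ Dense {x | IsCC T x} := by
  have hv := (b.orthonormal.comp _ Nat.succ_injective).orthogonalFamily
  let S := hv.linearIsometry.comp b.repr.toLinearIsometry
  have hS : ∀ n, S (b n) = b (n + 1) := fun n => by
    simp [S, b.repr_self, hv.linearIsometry_apply_single]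
  have dn : ∀ K : Submodule 𝕜 H, IsClosed (K : Set H) → (∀ n, b n ∈ K) → K = ⊤ := fun K h1 h2 =>
    top_unique (b.dense_span ▸ Submodule.topologicalClosure_minimal _
      (Submodule.span_le.2 (Set.range_subset_iff.2 h2)) h1)
  have h0 : ∀ y, inner 𝕜 (S y) (b 0) = 0 := fun y => by
    have := dn (innerSL 𝕜 (b 0) ∘L S.toContinuousLinearMap).ker
      (ContinuousLinearMap.isClosed_ker _) fun n => by
        simpa [hS] using b.orthonormal.2 (Nat.succ_ne_zero n).symm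
    exact inner_eq_zero_symm.1 (this.ge (Submodule.mem_top (x := y)))
  obtain ⟨c, hc⟩ := cyc S.toContinuousLinearMap S.norm_toContinuousLinearMap_le (b 0)
    fun K h1 h2 h3 => dn K h1 fun n => by
      induction n with
      | zero => exact h2
      | succ n ih => exact hS n ▸ h3 _ ih
  refine ⟨_, ⟨_, hc⟩, fun hd => ?_⟩
  obtain ⟨y, hy, h1⟩ := Metric.dense_iff.1 hd (S (b 0)) (1 / 8) (by norm_num)
  obtain ⟨k, μ, k0, k1, k2⟩ := near S (b.orthonormal.1 0) h0 (mem_ball_iff_norm.1 hy).le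
  rw [add_sub_cancel] at k1
  let _ := NormedSpace.restrictScalars ℝ 𝕜 H
  have h2 : convexHull ℝ (Set.range fun n : ℕ =>
      ((c • 1 + (1 / 100 : 𝕜) • S.toContinuousLinearMap) ^ n) y) ⊆ (𝕜 ∙ k)ᗮ := by
    refine convexHull_min ?_ fun a ha d hd s t _ _ _ =>
      add_mem (Submodule.smul_mem _ (s : 𝕜) ha) (Submodule.smul_mem _ (t : 𝕜) hd)
    rintro _ ⟨n, rfl⟩
    refine Submodule.mem_orthogonal_singleton_iff_inner_left.2 ?_
    induction n with
    | zero => exact k1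
    | succ n ih =>
      dsimp only at ih ⊢
      rw [pow_succ', mul_apply_eq_comp]
      generalize ((c • 1 + (1 / 100 : 𝕜) • S.toContinuousLinearMap) ^ n) y = z at ih
      simp [inner_add_left, inner_smul_left, k2, ih]
  have h3 := closure_minimal h2 (Submodule.isClosed_orthogonal _) (h1 k)
  exact k0 (inner_self_eq_zero.1 (Submodule.mem_orthogonal_singleton_iff_inner_left.1 h3))

/-- Over both scalar fields there is a convex-cyclic operator on a Hilbert space whose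
convex-cyclic vectors are not dense. -/
theorem result (𝕜 : Type) [RCLike 𝕜] :
    ∃ (X : Type) (_ : NormedAddCommGroup X) (_ : InnerProductSpace 𝕜 X) (_ : CompleteSpace X)
      (T : X →L[𝕜] X), (∃ x, IsCC T x) ∧ ¬ Dense {x | IsCC T x} :=
  ⟨lp (fun _ : ℕ => 𝕜) 2, _, inferInstance, inferInstance, main default⟩

end Pool.Agent.Results.MP_0f7a95_an.Counterexample
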